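import Pool.Agent.Helper62.DSH.StA

/-!
# Project DSH, module BOJ: weighted Bochner inequality for forms
-/

set_option autoImplicit false

open Set Filter Topology MeasureTheory
open Helper62.LH
open Helper62.DSH
open scoped ContDiff ENNReal

noncomputable section

namespace Pool.Agent.Helper70.DSH

/-! ### continuity and smoothness -/

private theorem vol_cont {n : ℕ} {g : E n → Bl n} (hg : IsMet g) : Continuous (fun x => vol g x) := by
  have h := hg.smooth.continuous
  have h1 : Continuous (fun x => gm g x) := by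
    refine continuous_pi fun i => continuous_pi fun j => ?_
    show Continuous fun x => g x (ee i) (ee j)
    fun_prop
  exact (h1.matrix_det).sqrt

private theorem ipt_smooth {n j : ℕ} {s t : E n → Tn n j} (hs : ContDiff ℝ ∞ s)
    (ht : ContDiff ℝ ∞ t) : ContDiff ℝ ∞ (fun x => ipt (s x) (t x)) := by
  unfold ipt
  have hs' := contDiff_pi.1 hs
  have ht' := contDiff_pi.1 ht
  exact (ContDiff.sum fun I _ => (hs' I).mul (ht' I)).div_const _

private theorem ct_smooth {n j : ℕ} (a : Fin n) {s : E n → Tn n (j + 1)} (hs : ContDiff ℝ ∞ s) :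
    ContDiff ℝ ∞ (fun x => ct a (s x)) := by
  have hs' := contDiff_pi.1 hs
  exact contDiff_pi.2 fun K => hs' (Fin.cons a K)

private theorem ct_zero {n j : ℕ} (a : Fin n) : ct a (0 : Tn n (j + 1)) = 0 := rfl

private theorem ipt_zero_left {n j : ℕ} (t : Tn n j) : ipt 0 t = 0 := by
  unfold ipt
  simp

private theorem ipt_zero_right {n j : ℕ} (t : Tn n j) : ipt t 0 = 0 := by
  unfold ipt
  simp

private theorem q2_zero {n j : ℕ} : q2 (0 : Tn n j) = 0 := ipt_zero_left _

private theorem integ {n : ℕ} {h : E n → ℝ} (hc : Continuous h) {K : Set (E n)} (hK : IsCompact K)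
    (h0 : ∀ x, x ∉ K → h x = 0) : Integrable h :=
  hc.integrable_of_hasCompactSupport (HasCompactSupport.intro hK fun x hx => h0 x hx)

/-! ### the curvature term on a compact set -/

private theorem wz_bound (hRho : TRho) (hNrm : TNrm) {n m : ℕ} {C : ℝ} 
    (R : Fin n → Fin n → Fin n → Fin n → ℝ) (hR : ∀ a b c l, |R a b c l| ≤ C) (t : Tn n (m + 1)) :
    -((∑ _a : Fin n, ∑ _b : Fin n, ((m : ℝ) + 1) * (1 + (((m + 1 : ℕ) : ℝ) * n * C) ^ 2)) * q2 t) ≤
      Wz R t := by
  have hq := hNrm n m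
  have hq1 := hNrm n (m + 1)
  have hct : ∀ (s : Tn n (m + 1)) (a : Fin n), q2 (ct a s) ≤ (m + 1) * q2 s := by
    intro s a
    rw [← hq.2.2.2.2.2.2.2 s]
    exact Finset.single_le_sum (f := fun a => q2 (ct a s)) (fun i _ => (hq.1 _).1) (Finset.mem_univ a)
  unfold Wz
  rw [Finset.sum_mul, ← Finset.sum_neg_distrib]
  refine Finset.sum_le_sum fun a _ => ?_
  rw [Finset.sum_mul, ← Finset.sum_neg_distrib]
  refine Finset.sum_le_sum fun b _ => ?_
  have h1 := hq.2.2.1 (ct a t) (ct b (rho (R a b) t))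
  have h2 := hct t a
  have h3 := hct (rho (R a b) t) b
  have h4 := (hRho n (m + 1) (R a b) (R a b)).2.2.2.2 C t (hR a b)
  have h5 : 0 ≤ q2 t := (hq1.1 t).1
  have h6 : 0 ≤ q2 (ct a t) := (hq.1 _).1
  have h7 : 0 ≤ q2 (ct b (rho (R a b) t)) := (hq.1 _).1
  have h8 : √(q2 (ct a t)) * √(q2 (ct b (rho (R a b) t))) ≤
      (q2 (ct a t) + q2 (ct b (rho (R a b) t))) / 2 := by
    nlinarith [Real.sq_sqrt h6, Real.sq_sqrt h7,
      sq_nonneg (√(q2 (ct a t)) - √(q2 (ct b (rho (R a b) t))))]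
  have h9 := neg_abs_le (ipt (ct a t) (ct b (rho (R a b) t)))
  have h10 : 0 ≤ (m : ℝ) + 1 := by positivity
  have h11 : ((m : ℝ) + 1) * q2 (rho (R a b) t) ≤
      ((m : ℝ) + 1) * ((((m + 1 : ℕ) : ℝ) * n * C) ^ 2 * q2 t) := mul_le_mul_of_nonneg_left h4 h10
  have h12 : 0 ≤ ((m : ℝ) + 1) * q2 t := mul_nonneg h10 h5
  have h13 : 0 ≤ ((m : ℝ) + 1) * ((((m + 1 : ℕ) : ℝ) * n * C) ^ 2 * q2 t) := by positivity
  nlinarith

/-- curvature bound on a compact set -/
private theorem rc_bound (hChr : StChr) {n : ℕ} {g : E n → Bl n} {Γ : E n → Bm n}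
    {F : Fin n → E n → E n} (hg : IsMet g) (hΓ : IsChr g Γ) (hF : ∀ a, ContDiff ℝ ∞ (F a))
    {K0 : Set (E n)} (hK : IsCompact K0) :
    ∃ C : ℝ, ∀ x ∈ K0, ∀ a b c l, |Rc g Γ F x a b c l| ≤ C := by
  have hgc := hg.smooth.continuous
  have hΓs := (hChr n g Γ hg hΓ).1
  have hΓc := hΓs.continuous
  have hΓd := hΓs.continuous_fderiv (by simp)
  have hFc : ∀ a, Continuous (F a) := fun a => (hF a).continuous
  have h1 : ∀ a b c l, Continuous (fun x => Rc g Γ F x a b c l) := by
    intro a b c l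
    have ha := hFc a
    have hb := hFc b
    have hc := hFc c
    have hl := hFc l
    have h2 : Continuous (fun x => Rm Γ x (F a x) (F b x) (F c x)) := by
      unfold Rm
      refine ((Continuous.add (Continuous.sub ?_ ?_) ?_).sub ?_)
      · exact ((hΓd.clm_apply ha).clm_apply hb).clm_apply hc
      · exact ((hΓd.clm_apply hb).clm_apply ha).clm_apply hc
      · exact (hΓc.clm_apply ha).clm_apply ((hΓc.clm_apply hb).clm_apply hc)
      · exact (hΓc.clm_apply hb).clm_apply ((hΓc.clm_apply ha).clm_apply hc)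
    exact (hgc.clm_apply h2).clm_apply hl
  have h2 : Continuous (fun x => (fun a b c l => Rc g Γ F x a b c l :
      Fin n → Fin n → Fin n → Fin n → ℝ)) :=
    continuous_pi fun a => continuous_pi fun b => continuous_pi fun c => continuous_pi fun l =>
      h1 a b c l
  obtain ⟨C, hC⟩ := hK.exists_bound_of_continuousOn h2.continuousOn
  refine ⟨C, fun x hx a b c l => ?_⟩
  have h3 := hC x hx
  refine le_trans ?_ h3
  refine le_trans ?_ (norm_le_pi_norm _ a)
  refine le_trans ?_ (norm_le_pi_norm _ b)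
  refine le_trans ?_ (norm_le_pi_norm _ c)
  refine le_trans ?_ (norm_le_pi_norm _ l)
  rw [Real.norm_eq_abs]

private theorem swap3 {α β : Type} [Fintype α] [Fintype β] (W : α → α → β → ℝ) (c : ℝ) :
    ∑ a, ∑ b, (∑ K, W a b K) / c = (∑ K, ∑ b, ∑ a, W a b K) / c := by
  rw [Finset.sum_comm]
  simp only [← Finset.sum_div]
  congr 1
  calc ∑ b, ∑ a, ∑ K, W a b K = ∑ b, ∑ K, ∑ a, W a b K :=
        Finset.sum_congr rfl fun b _ => Finset.sum_comm
    _ = ∑ K, ∑ b, ∑ a, W a b K := Finset.sum_comm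

/-- the Hessian term -/
private theorem hess_bound (hNrm : TNrm) {n m : ℕ} {g : E n → Bl n} {Γ : E n → Bm n}
    {F : Fin n → E n → E n} {f : E n → ℝ} {ε : ℝ} {x : E n} (hO : Onb g x (fun a => F a x))
    (hH : ∀ v, -(ε * g x v v) ≤ Hs Γ f x v v) (t : Tn n (m + 1)) :
    -((m + 1) * ε * q2 t) ≤
      ∑ a, ∑ b, Hs Γ f x (F a x) (F b x) * ipt (ct a t) (ct b t) := by
  have hq := hNrm n m
  -- the vectors
  have h1 : ∀ K : Fin m → Fin n, Hs Γ f x (∑ a, t (Fin.cons a K) • F a x)
      (∑ a, t (Fin.cons a K) • F a x) =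
      ∑ b, ∑ a, Hs Γ f x (F a x) (F b x) * (t (Fin.cons a K) * t (Fin.cons b K)) := by
    intro K
    unfold Hs
    simp only [map_sum, map_smul, sum_apply, smul_apply, smul_eq_mul, Finset.mul_sum]
    rw [← Finset.sum_sub_distrib]
    refine Finset.sum_congr rfl fun b _ => ?_
    rw [← Finset.sum_sub_distrib]
    refine Finset.sum_congr rfl fun a _ => ?_
    ring
  have h2 : ∀ K : Fin m → Fin n, g x (∑ a, t (Fin.cons a K) • F a x)
      (∑ a, t (Fin.cons a K) • F a x) = ∑ a, t (Fin.cons a K) * t (Fin.cons a K) := by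
    intro K
    simp only [map_sum, map_smul, sum_apply, smul_apply, smul_eq_mul, Finset.mul_sum]
    refine Finset.sum_congr rfl fun a _ => ?_
    rw [Finset.sum_eq_single a]
    · rw [hO.orth, if_pos rfl, mul_one]
    · intro b _ hb
      rw [hO.orth, if_neg hb]
      ring
    · intro h
      exact absurd (Finset.mem_univ a) h
  have h3 : ∑ a, ∑ b, Hs Γ f x (F a x) (F b x) * ipt (ct a t) (ct b t) =
      (∑ K : Fin m → Fin n, Hs Γ f x (∑ a, t (Fin.cons a K) • F a x)
        (∑ a, t (Fin.cons a K) • F a x)) / m.factorial := by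
    simp only [h1]
    rw [← swap3 (fun a b K => Hs Γ f x (F a x) (F b x) * (t (Fin.cons a K) * t (Fin.cons b K)))]
    refine Finset.sum_congr rfl fun a _ => Finset.sum_congr rfl fun b _ => ?_
    unfold ipt ct
    rw [mul_div_assoc', Finset.mul_sum]
  have h4 : (m + 1) * q2 t = (∑ K : Fin m → Fin n, g x (∑ a, t (Fin.cons a K) • F a x)
        (∑ a, t (Fin.cons a K) • F a x)) / m.factorial := by
    rw [← hq.2.2.2.2.2.2.2 t]
    simp only [h2]
    have h6 : ∑ a, q2 (ct a t) =
        ∑ a, (∑ K : Fin m → Fin n, t (Fin.cons a K) * t (Fin.cons a K)) / m.factorial := rfl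
    rw [h6, ← Finset.sum_div, Finset.sum_comm]
  rw [h3]
  have h5 : -(((m : ℝ) + 1) * ε * q2 t) = -(ε * (((m : ℝ) + 1) * q2 t)) := by ring
  rw [h5, h4, mul_div_assoc', ← neg_div]
  apply div_le_div_of_nonneg_right _ (Nat.cast_nonneg _)
  rw [Finset.mul_sum, ← Finset.sum_neg_distrib]
  exact Finset.sum_le_sum fun K _ => hH _

theorem hBoj (hChr : StChr) (hRho : TRho) (hSqd : TSqd) (hNrm : TNrm) (hDer : TDer) (hDvg : TDvg)
    (hPtw : TPtw) : TBoj := by
  intro n m g Γ F G hg hΓ hFr K0 hK0 hW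
  obtain ⟨C, hC⟩ := rc_bound hChr hg hΓ hFr.smF hK0
  obtain ⟨Λ, hΛ⟩ : ∃ Λ : ℝ, Λ = ∑ _a : Fin n, ∑ _b : Fin n,
      ((m : ℝ) + 1) * (1 + (((m + 1 : ℕ) : ℝ) * n * C) ^ 2) := ⟨_, rfl⟩
  refine ⟨Λ, ?_, ?_⟩
  · rw [hΛ]
    exact Finset.sum_nonneg fun a _ => Finset.sum_nonneg fun b _ => by positivity
  intro f ε hf hH u hu hAl hsupp
  have hder := hDer n (m + 1) g Γ F G hFr
  have hder0 := hDer n m g Γ F G hFr
  have hcv : ∀ a, ContDiff ℝ ∞ (fun x => cv F G u x a) := (hder.1 u hu).1
  have hdF : ContDiff ℝ ∞ (dF F G u) := (hder.1 u hu).2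
  have hdl : ContDiff ℝ ∞ (dlF F G f u) := hder0.2.1 f u hf hu
  have hcvA : ∀ x a, Altn (cv F G u x a) := (hder.2.2.1 u hu hAl).1
  have hsup : ∀ x, x ∉ tsupport u → u x = 0 ∧ (∀ a, cv F G u x a = 0) ∧ dF F G u x = 0 :=
    fun x hx => hder.2.2.2.2.2.2.2 u x hx
  have hdl0 : ∀ x, x ∉ tsupport u → dlF F G f u x = 0 := by
    intro x hx
    obtain ⟨h1, h2, _⟩ := hsup x hx
    unfold dlF
    refine Finset.sum_eq_zero fun a _ => ?_
    rw [h2 a, h1, ct_zero, smul_zero, sub_zero]
  have hYc : ∀ b, ContDiff ℝ ∞ (fun x => YB F G f u x b) := by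
    intro b
    unfold YB
    exact (ipt_smooth hdl (ct_smooth b hu)).sub
      (ContDiff.sum fun a _ => ipt_smooth (ct_smooth a hu) (ct_smooth b (hcv a)))
  have hY : ContDiff ℝ 1 (fun x => YB F G f u x) :=
    contDiff_pi.2 fun b => (hYc b).of_le (by exact_mod_cast le_top)
  have hYs : HasCompactSupport (fun x => YB F G f u x) := by
    refine HasCompactSupport.intro hsupp fun x hx => ?_
    obtain ⟨h1, h2, _⟩ := hsup x hx
    funext b
    unfold YB
    rw [hdl0 x hx, h1, ipt_zero_left, zero_sub, Pi.zero_apply, neg_eq_zero]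
    refine Finset.sum_eq_zero fun a _ => ?_
    rw [ct_zero, ipt_zero_left]
  obtain ⟨B, hB⟩ : ∃ B : E n → ℝ, B = fun x => ∑ a, (fderiv ℝ (fun y => YB F G f u y a) x (F a x) +
      ((∑ b, G x b a b) - fderiv ℝ f x (F a x)) * YB F G f u x a) := ⟨_, rfl⟩
  have hD : ∫ x, B x * wt g f x = 0 := by
    rw [hB]
    exact hDvg n g Γ F G hg hΓ hFr f hf (fun x => YB F G f u x) hY hYs
  have hP : ∀ x, B x = q2 (dlF F G f u x) -
      (∑ a, ∑ b, ipt (ct a (cv F G u x b)) (ct b (cv F G u x a))) -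
      (∑ a, ∑ b, Hs Γ f x (F a x) (F b x) * ipt (ct a (u x)) (ct b (u x))) -
      Wz (Rc g Γ F x) (u x) := by
    intro x
    rw [hB]
    exact hPtw n m g Γ F G hg hΓ hFr f u hf hu x
  have hS : ∀ x, q2 (dF F G u x) = NF F G u x -
      ∑ a, ∑ b, ipt (ct a (cv F G u x b)) (ct b (cv F G u x a)) :=
    fun x => (hSqd n).2.2 m (cv F G u x) (hcvA x)
  -- continuity
  have hwt : Continuous (wt g f) := by
    unfold wt
    exact (Real.continuous_exp.comp hf.continuous.neg).mul (vol_cont hg)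
  have hwt0 : ∀ x, 0 ≤ wt g f x := fun x => mul_nonneg (Real.exp_pos _).le (Real.sqrt_nonneg _)
  have hBc : Continuous B := by
    rw [hB]
    refine continuous_finset_sum _ fun a _ => ?_
    have h1 := (hYc a).continuous_fderiv (by simp)
    have h2 := hf.continuous_fderiv (by simp)
    have h3 := (hFr.smF a).continuous
    have h4 : Continuous (fun x => ∑ b, G x b a b) :=
      continuous_finset_sum _ fun b _ => (hFr.smG b a b).continuous
    exact (h1.clm_apply h3).add ((h4.sub (h2.clm_apply h3)).mul (hYc a).continuous)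
  have hNc : Continuous (fun x => NF F G u x) :=
    continuous_finset_sum _ fun a _ => (ipt_smooth (hcv a) (hcv a)).continuous
  have hqc : Continuous (fun x => q2 (u x)) := (ipt_smooth hu hu).continuous
  have hqd : Continuous (fun x => q2 (dF F G u x)) := (ipt_smooth hdF hdF).continuous
  have hql : Continuous (fun x => q2 (dlF F G f u x)) := (ipt_smooth hdl hdl).continuous
  -- integrability
  have iN : Integrable (fun x => NF F G u x * wt g f x) := by
    refine integ (hNc.mul hwt) hsupp fun x hx => ?_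
    show NF F G u x * wt g f x = 0
    obtain ⟨_, h2, _⟩ := hsup x hx
    have h3 : NF F G u x = 0 := by
      unfold NF
      refine Finset.sum_eq_zero fun a _ => ?_
      rw [h2 a, q2_zero]
    rw [h3, zero_mul]
  have iB : Integrable (fun x => B x * wt g f x) := by
    refine integ (hBc.mul hwt) hsupp fun x hx => ?_
    show B x * wt g f x = 0
    obtain ⟨h1, h2, _⟩ := hsup x hx
    have h3 : B x = 0 := by
      rw [hP x, hdl0 x hx, h1, q2_zero]
      have e1 : (∑ a, ∑ b, ipt (ct a (cv F G u x b)) (ct b (cv F G u x a))) = 0 := by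
        refine Finset.sum_eq_zero fun a _ => Finset.sum_eq_zero fun b _ => ?_
        rw [h2 b, ct_zero, ipt_zero_left]
      have e2 : (∑ a, ∑ b, Hs Γ f x (F a x) (F b x) *
          ipt (ct a (0 : Tn n (m + 1))) (ct b (0 : Tn n (m + 1)))) = 0 := by
        refine Finset.sum_eq_zero fun a _ => Finset.sum_eq_zero fun b _ => ?_
        rw [ct_zero, ipt_zero_left, mul_zero]
      have e3 : Wz (Rc g Γ F x) (0 : Tn n (m + 1)) = 0 := by
        unfold Wz
        refine Finset.sum_eq_zero fun a _ => Finset.sum_eq_zero fun b _ => ?_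
        rw [ct_zero, ipt_zero_left]
      rw [e1, e2, e3]
      ring
    rw [h3, zero_mul]
  have iq : Integrable (fun x => q2 (u x) * wt g f x) := by
    refine integ (hqc.mul hwt) hsupp fun x hx => ?_
    show q2 (u x) * wt g f x = 0
    obtain ⟨h1, _, _⟩ := hsup x hx
    rw [h1, q2_zero, zero_mul]
  have iD : Integrable (fun x => (q2 (dF F G u x) + q2 (dlF F G f u x)) * wt g f x) := by
    refine integ ((hqd.add hql).mul hwt) hsupp fun x hx => ?_
    show (q2 (dF F G u x) + q2 (dlF F G f u x)) * wt g f x = 0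
    obtain ⟨_, _, h3⟩ := hsup x hx
    rw [h3, hdl0 x hx, q2_zero, q2_zero, add_zero, zero_mul]
  have hmeas : MeasurableSet K0 := hK0.isClosed.measurableSet
  have ii : Integrable (K0.indicator (fun x => q2 (u x) * wt g f x)) := iq.indicator hmeas
  have iA : Integrable (fun x => (q2 (dF F G u x) + q2 (dlF F G f u x)) * wt g f x +
      ((m + 1) * ε) * (q2 (u x) * wt g f x)) := iD.add (iq.const_mul _)
  have iI : Integrable (fun x => Λ * K0.indicator (fun x => q2 (u x) * wt g f x) x) :=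
    ii.const_mul _
  -- the pointwise inequality
  have hpt : ∀ x, NF F G u x * wt g f x + B x * wt g f x ≤
      (q2 (dF F G u x) + q2 (dlF F G f u x)) * wt g f x +
        ((m + 1) * ε) * (q2 (u x) * wt g f x) +
        Λ * K0.indicator (fun x => q2 (u x) * wt g f x) x := by
    intro x
    have h1 := hess_bound hNrm (hFr.onb x) (hH x) (u x)
    have h2 := hP x
    have h3 := hS x
    have h4 := hwt0 x
    have h5 : 0 ≤ q2 (u x) := ((hNrm n (m + 1)).1 (u x)).1
    by_cases hx : x ∈ K0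
    · rw [Set.indicator_of_mem hx]
      have h6 := wz_bound hRho hNrm (Rc g Γ F x) (hC x hx) (u x)
      rw [← hΛ] at h6
      have h7 : NF F G u x + B x ≤ q2 (dF F G u x) + q2 (dlF F G f u x) +
          (m + 1) * ε * q2 (u x) + Λ * q2 (u x) := by linarith
      have h8 := mul_le_mul_of_nonneg_right h7 h4
      linarith
    · rw [Set.indicator_of_notMem hx]
      have h6 := hW x hx (u x) (hAl x)
      have h7 : NF F G u x + B x ≤ q2 (dF F G u x) + q2 (dlF F G f u x) +
          (m + 1) * ε * q2 (u x) := by linarith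
      have h8 := mul_le_mul_of_nonneg_right h7 h4
      linarith
  calc ∫ x, NF F G u x * wt g f x
      = ∫ x, (NF F G u x * wt g f x + B x * wt g f x) := by
        rw [integral_add iN iB, hD, add_zero]
    _ ≤ ∫ x, ((q2 (dF F G u x) + q2 (dlF F G f u x)) * wt g f x +
        ((m + 1) * ε) * (q2 (u x) * wt g f x) +
        Λ * K0.indicator (fun x => q2 (u x) * wt g f x) x) :=
        integral_mono (iN.add iB) (iA.add iI) hpt
    _ = (∫ x, (q2 (dF F G u x) + q2 (dlF F G f u x)) * wt g f x) +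
      (m + 1) * ε * (∫ x, q2 (u x) * wt g f x) + Λ * ∫ x in K0, q2 (u x) * wt g f x := by
        rw [integral_add iA iI,
          integral_add iD (iq.const_mul _), integral_const_mul, integral_const_mul,
          integral_indicator hmeas]

end Pool.Agent.Helper70.DSH
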